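import Pool.Agent.Q280.TG.WC

/-!
# The smallest category of motives over which the period conjecture is exact
-/

set_option autoImplicit false

open MvPolynomial Pool.Agent.Q280.TG Pool.Agent.Q280.TG.W

namespace Pool.Agent.Results.MP_caab05_ag.CanonicalCategory

/-- The algebraic numbers. -/
abbrev Qbar : Type := algebraicClosure ℚ ℂ

/-- `C` is a category of finite dimension `n`, and the transcendence degree of its periods is `n - d`. -/
def Defect (D : Periods Qbar) (C : Set D.Fun) (d : ℕ) : Prop :=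
  D.IsCategory C ∧ ∃ n r, TD Qbar C n ∧ TD ℚ (D.per C) r ∧ n = r + d

/-- The period conjecture is exact over the category `B`: for every category `C` of finite dimension `n`, if the common
part of `C` and `B` has dimension `m`, then the transcendence degree of the periods of `C` over the field generated
by the periods of `B` is `n - m`. -/
def Exact (D : Periods Qbar) (B : Set D.Fun) : Prop :=
  D.IsCategory B ∧ ∀ C n, D.IsCategory C → TD Qbar C n →
    ∃ m ≤ n, TD Qbar (C ∩ B) m ∧ TD (IntermediateField.adjoin ℚ (D.per B)) (D.per C) (n - m)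

/-- `T` has larger defect than all its proper subcategories. -/
def Tight (D : Periods Qbar) (T : Set D.Fun) : Prop :=
  ∃ e, Defect D T e ∧ ∀ W d, Defect D W d → W ⊂ T → d < e

section

variable {D : Periods Qbar}

noncomputable instance : IsAlgClosed Qbar := (algebraicClosure.isAlgClosure ℚ ℂ).isAlgClosed

theorem halg : ∀ c : Qbar, IsAlgebraic ℚ (algebraMap Qbar ℂ c) := fun c => mem_algebraicClosure_iff.mp c.2

theorem defect_iff (a : D.Lat) (d : ℕ) : Defect D (Periods.S a) d ↔ Fn.fn a ∧ Fn.df D.evp a = d := by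
  constructor
  · rintro ⟨_, n, r, h1, h2, h3⟩
    obtain ⟨h4, h5⟩ := Periods.td_S.mp h1
    have h6 := (Periods.td_per halg h4).mp h2
    refine ⟨h4, ?_⟩
    unfold Fn.df
    omega
  · rintro ⟨h1, h2⟩
    refine ⟨Periods.isCategory_S a, Fn.wt a, Fn.rk D.evp a, Periods.td_S.mpr ⟨h1, rfl⟩,
      (Periods.td_per halg h1).mpr rfl, ?_⟩
    unfold Fn.df at h2
    omega

theorem defect_of (a : D.Lat) (h : Fn.fn a) : Defect D (Periods.S a) (Fn.df D.evp a).toNat := by
  refine (defect_iff a _).mpr ⟨h, ?_⟩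
  have h1 := Fn.df_nonneg D.evp halg h
  omega

theorem exact_iff (B : D.Lat) : Exact D (Periods.S B) ↔ Fn.Rel D.evp B := by
  constructor
  · rintro ⟨_, h⟩ Q hQ
    obtain ⟨m, _, h2, h3⟩ := h (Periods.S Q) (Fn.wt Q) (Periods.isCategory_S Q) (Periods.td_S.mpr ⟨hQ, rfl⟩)
    rw [Periods.S_inf, Periods.td_S] at h2
    obtain ⟨_, rfl⟩ := h2
    exact (Periods.td_rel halg hQ).mp h3
  · intro h
    refine ⟨Periods.isCategory_S B, fun C n hC hn => ?_⟩
    obtain ⟨Q, rfl⟩ := Periods.exists_S hC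
    obtain ⟨hQ, rfl⟩ := Periods.td_S.mp hn
    refine ⟨Fn.wt (Q ⊓ B), Fn.wt_mono hQ inf_le_left, ?_, (Periods.td_rel halg hQ).mpr (h Q hQ)⟩
    rw [Periods.S_inf]
    exact Periods.td_S.mpr ⟨Fn.fn_le hQ inf_le_left, rfl⟩

theorem tight_iff (T : D.Lat) : Tight D (Periods.S T) ↔ Fn.Ti D.evp T := by
  constructor
  · rintro ⟨e, h1, h2⟩
    obtain ⟨h3, h4⟩ := (defect_iff T e).mp h1
    refine ⟨h3, fun W hW => ?_⟩
    have h5 := h2 _ _ (defect_of W (Fn.fn_le h3 hW.le)) (Periods.S_lt.mpr hW)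
    omega
  · rintro ⟨h1, h2⟩
    refine ⟨_, defect_of T h1, fun W d hd hW => ?_⟩
    obtain ⟨V, rfl⟩ := Periods.exists_S hd.1
    obtain ⟨h3, h4⟩ := (defect_iff V d).mp hd
    have h5 := h2 V (Periods.S_lt.mp hW)
    omega

end

/-- **Theorem.** There is a smallest category `B` over which the period conjecture is exact. All categories of
finite dimension have the same defect as their common part with `B`. `B` is trivial if and only if the period
conjecture holds for all finite sums of the motives of the family; `B` has finite dimension if and only if the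
defects are bounded, and then its defect is the largest one. The categories whose defect is larger than that of
all their proper subcategories lie in `B`, and each subcategory of `B` of finite dimension lies in one of them. -/
theorem result (D : Periods Qbar) : ∃ B : Set D.Fun,
    (Exact D B ∧ ∀ B', Exact D B' → B ⊆ B') ∧
    (∀ C n, D.IsCategory C → TD Qbar C n → ∃ d, Defect D C d ∧ Defect D (C ∩ B) d) ∧
    ((∀ f ∈ B, ∃ c, f = D.fp (C c)) ↔ ∀ (s : Finset D.I) (n : ℕ),
      TD Qbar {f : D.Fun | ∃ v : Var D.N, v.1 ∈ s ∧ D.fp (X v) = f} n →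
        TD ℚ {z : ℂ | ∃ v : Var D.N, v.1 ∈ s ∧ co D.β v = z} n) ∧
    ((∃ n, TD Qbar B n) ↔ ∃ c, ∀ C d, Defect D C d → d ≤ c) ∧
    (∀ e, Defect D B e → ∀ C d, Defect D C d → d ≤ e) ∧
    (∀ T, Tight D T → T ⊆ B) ∧
    (∀ V n, D.IsCategory V → TD Qbar V n → V ⊆ B → ∃ T, Tight D T ∧ V ⊆ T) := by
  obtain ⟨B, h1, h2, h3, h4, h5, h6, h7, h8⟩ := Fn.main D.evp halg D.toPD.pts
  refine ⟨Periods.S B, ⟨(exact_iff B).mpr h1, fun B' hB' => ?_⟩, ?_, ?_, ?_, ?_, ?_, ?_⟩
  · obtain ⟨b, rfl⟩ := Periods.exists_S hB'.1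
    exact Periods.S_le.mpr (h2 b ((exact_iff b).mp hB'))
  · intro C n hC hn
    obtain ⟨Q, rfl⟩ := Periods.exists_S hC
    obtain ⟨hQ, rfl⟩ := Periods.td_S.mp hn
    refine ⟨_, defect_of Q hQ, ?_⟩
    rw [Periods.S_inf, h3 Q hQ]
    exact defect_of _ (Fn.fn_le hQ inf_le_left)
  · rw [Periods.S_bot, h4]
    constructor
    · intro h s n hn
      rw [Periods.rk_ca halg]
      obtain rfl := (Periods.wt_ca s).mp hn
      have h10 := h (Periods.ca s) (Periods.fn_ca s)
      unfold Fn.df at h10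
      omega
    · intro h Q hQ
      obtain ⟨s, hs⟩ := Periods.le_ca hQ
      have h10 := (Periods.rk_ca halg s).mp (h s _ ((Periods.wt_ca s).mpr rfl))
      have h11 := Fn.df_mono D.evp halg (Periods.fn_ca s) hs
      have h12 := Fn.df_nonneg D.evp halg hQ
      unfold Fn.df at h11 h12 ⊢
      omega
  · have h9 : (∃ n, TD Qbar (Periods.S B) n) ↔ Fn.fn B :=
      ⟨fun ⟨n, hn⟩ => (Periods.td_S.mp hn).1, fun h => ⟨_, Periods.td_S.mpr ⟨h, rfl⟩⟩⟩
    rw [h9, h5]
    constructor
    · rintro ⟨c, hc⟩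
      refine ⟨c.toNat, fun C d hd => ?_⟩
      obtain ⟨Q, rfl⟩ := Periods.exists_S hd.1
      obtain ⟨h10, h11⟩ := (defect_iff Q d).mp hd
      have h12 := hc Q h10
      omega
    · rintro ⟨c, hc⟩
      refine ⟨c, fun Q hQ => ?_⟩
      have h10 := hc _ _ (defect_of Q hQ)
      omega
  · intro e he C d hd
    obtain ⟨Q, rfl⟩ := Periods.exists_S hd.1
    obtain ⟨h9, h10⟩ := (defect_iff Q d).mp hd
    obtain ⟨h11, h12⟩ := (defect_iff B e).mp he
    have h13 := h6 h11 Q h9
    omega
  · intro T hT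
    obtain ⟨e, he, _⟩ := id hT
    obtain ⟨t, rfl⟩ := Periods.exists_S he.1
    exact Periods.S_le.mpr (h7 t ((tight_iff t).mp hT))
  · intro V n hV hn hVB
    obtain ⟨v, rfl⟩ := Periods.exists_S hV
    obtain ⟨h9, _⟩ := Periods.td_S.mp hn
    obtain ⟨T, hT, hvT⟩ := h8 v h9 (Periods.S_le.mp hVB)
    exact ⟨Periods.S T, (tight_iff T).mpr hT, Periods.S_le.mpr hvT⟩

end Pool.Agent.Results.MP_caab05_ag.CanonicalCategory
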