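import Pool.Agent.Q246.AF.LegLink

/-!
# Products of Legendre elliptic curves over number fields: a measure of algebraic independence of the periods,
# for polynomials of arbitrarily large height

For real algebraic `α_i > 1` let `X_α = E_{1/α_1} × ⋯ × E_{1/α_k}`, with `E_s : y² = x(x-1)(x-s)`.  The field of the periods
of `X_α` is generated, up to algebraic numbers, by `π` and the `3k` numbers `K(1/α_i)`, `E(1/α_i)`, `K(1 - 1/α_i)`, and for
general `α` its motivic Galois group has dimension `3k + 1`.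

There are `B` and `c > 0` such that, for all but a proportion `O(T ^ (-c))` of the tuples of real algebraic integers
`α_i > 1` of degree at most `m` all of whose conjugates are at most `T` in absolute value, the inequality
`|P(…)| ≥ H ^ (-B)` holds for all nonzero integer polynomials `P` of degree at most `d` and height at most `H` in the
`3k` numbers,

* for all `H` in a long interval from `H₁` to `H₁ ^ exp (T ^ c)`, for any sufficiently large `H₁`;
* for a set of `H` of upper density at least `1 - T ^ (-c)` on the doubly logarithmic scale; in particular for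
  arbitrarily large `H`, with an exceptional set of tuples which does not depend on `H`.

The same holds relative to arbitrary complex constants `ζ₁, ..., ζ_g`, for instance `π` or the periods of other
varieties, uniformly in `ζ`: `|P(ζ, …)| ≥ H ^ (-B) |P_e(ζ)|` for all coefficients `P_e(ζ)` of `P(ζ, X)`.

Proof (modules `Pool.Agent.Q246.AF`, `Pool.Agent.Q246.NR2`).  (1) For points `ξ - G g`, `1 ≤ g ≤ h`, with `ξ` in a number
field of degree at most `m` and `(h + 2) ^ E ≤ |ξ|`, the values at `1 / (ξ - G g)` of the free coordinates of a system of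
G-functions satisfy a measure of algebraic independence with an exponent which does not depend on the window: a
quantitative form of the theorem of Chudnovsky and Galochkin gives linear forms in products of the values, for near
relations of arbitrary height; a sequence of counterexamples then gives a valuation ring in an ultrapower of `ℂ` in whose
residue field the values would have a too small transcendence degree.  (2) For the Legendre family this applies to
`F`, `2H` and `(G - F)/2`, where `F log x / 2 + H` is the second solution at the cusp; the constants `log ξ`, `π` are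
eliminated from the near relations at several points of one window, so that a window contains a bounded number of
exceptional points, for each `H`.  (3) Induction on `k`, where the periods belonging to `α₂, ..., α_k` are treated as
constants.  (4) A double counting over the heights `2 ^ (2 ^ j)`.
-/

set_option autoImplicit false

namespace Pool.Agent.Results.MP_caab05_ag.MeasureAllHeights

/-- Complete elliptic integral of the first kind, `K(s) = ∫_0^{π/2} dθ / √(1 - s sin² θ)`. -/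
noncomputable def K (s : ℝ) : ℝ := ∫ θ in (0 : ℝ)..(Real.pi / 2), 1 / √(1 - s * Real.sin θ ^ 2)

/-- Complete elliptic integral of the second kind, `E(s) = ∫_0^{π/2} √(1 - s sin² θ) dθ`. -/
noncomputable def E (s : ℝ) : ℝ := ∫ θ in (0 : ℝ)..(Real.pi / 2), √(1 - s * Real.sin θ ^ 2)

/-- The `3k` numbers `K(1/α_i)`, `E(1/α_i)`, `K(1 - 1/α_i)`, for `i = 1, …, k`. -/
noncomputable def periods {k : ℕ} (α : Fin k → ℝ) (q : Fin k × Fin 3) : ℂ :=
  ![(K (1 / α q.1) : ℂ), (E (1 / α q.1) : ℂ), (K (1 - 1 / α q.1) : ℂ)] q.2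

/-- the algebraic integers of degree at most `m` all of whose conjugates have absolute value at most `T` -/
def Ints (m T : ℕ) : Set ℂ :=
  {α | IsIntegral ℤ α ∧ (minpoly ℚ α).natDegree ≤ m ∧ ∀ z : ℂ, Polynomial.aeval z (minpoly ℚ α) = 0 → ‖z‖ ≤ T}

/-- `P = Σ P_e(Y) X ^ e` has degree at most `d` in `X`, its coefficients `P_e` have degree at most `d` in `Y`,
and the integer coefficients are at most `H` in absolute value -/
def Adm {σ : Type} {g : ℕ} (d : ℕ) (H : ℝ) (P : MvPolynomial σ (MvPolynomial (Fin g) ℤ)) : Prop :=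
  P.totalDegree ≤ d ∧ ∀ e, (P.coeff e).totalDegree ≤ d ∧ ∀ f, |(((P.coeff e).coeff f : ℤ) : ℝ)| ≤ H

/-- the value `P(ζ, w)` -/
noncomputable def val {σ : Type} {g : ℕ} (ζ : Fin g → ℂ) (w : σ → ℂ) (P : MvPolynomial σ (MvPolynomial (Fin g) ℤ)) :
    ℂ := MvPolynomial.eval₂ (MvPolynomial.aeval ζ).toRingHom w P

/-- the measure of algebraic independence of the numbers `w` for polynomials of degree at most `d` and height
at most `H`, also relative to the constants `ζ` -/
def Good {σ : Type} {g : ℕ} (d B : ℕ) (ζ : Fin g → ℂ) (w : σ → ℂ) (H : ℝ) : Prop :=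
  (∀ P : MvPolynomial σ ℤ, P ≠ 0 → P.totalDegree ≤ d → (∀ e, |((P.coeff e : ℤ) : ℝ)| ≤ H) →
    1 ≤ H ^ B * ‖MvPolynomial.aeval w P‖) ∧
  ∀ P : MvPolynomial σ (MvPolynomial (Fin g) ℤ), Adm d H P →
    ∀ e, ‖MvPolynomial.aeval ζ (P.coeff e)‖ ≤ H ^ B * ‖val ζ w P‖

/-- For all `k`, `g`, `d`, `m ≥ 1` there are `B`, `C` and `c > 0` such that for all `T ≥ 1`: for all but at most
`C T ^ (-c) |Ints m T| ^ k` of the tuples `α` of real numbers `α_i > 1` in `Ints m T` the measure with exponent `B`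
holds for the `3k` numbers `K(1/α_i)`, `E(1/α_i)`, `K(1 - 1/α_i)` for all `H` with `H₁ ≤ H ≤ H₁ ^ exp (T ^ c)`, for each
large `H₁`; and, with one exceptional set for all `H`, for a set of `H` of upper density at least `1 - T ^ (-c)` on the
doubly logarithmic scale; also relative to arbitrary constants. -/
theorem result (k g d m : ℕ) (hm : 1 ≤ m) :
    ∃ (B : ℕ) (C c : ℝ), 0 < c ∧ ∀ T : ℕ, 1 ≤ T →
    (∃ H₀ : ℝ, ∀ H₁ : ℝ, H₀ ≤ H₁ → ∀ ζ : Fin g → ℂ,
      (({α : Fin k → ℝ | (∀ i, 1 < α i ∧ (α i : ℂ) ∈ Ints m T) ∧ ¬ ∀ H : ℝ, H₁ ≤ H →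
        H ≤ H₁ ^ Real.exp ((T : ℝ) ^ c) → Good d B ζ (periods α) H}.ncard : ℕ) : ℝ) ≤
          C * (T : ℝ) ^ (-c) * (((Ints m T).ncard : ℕ) : ℝ) ^ k) ∧
    ∀ ζ : Fin g → ℂ, (({α : Fin k → ℝ | (∀ i, 1 < α i ∧ (α i : ℂ) ∈ Ints m T) ∧ ¬ ∀ N₀ : ℕ, ∃ N, N₀ ≤ N ∧
      (({j : ℕ | j < N ∧ ¬ ∀ H : ℝ, 2 ^ (2 ^ j) ≤ H → H ≤ 2 ^ (2 ^ (j + 1)) →
        Good d B ζ (periods α) H}.ncard : ℕ) : ℝ) ≤ (T : ℝ) ^ (-c) * N}.ncard : ℕ) : ℝ) ≤
          C * (T : ℝ) ^ (-c) * (((Ints m T).ncard : ℕ) : ℝ) ^ k := by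
  classical
  obtain ⟨G, hG, hwin⟩ := Pool.Agent.Q246.AF.win_leg m
  obtain ⟨B, C, c, hc, h⟩ := Pool.Agent.Q246.NR2.masterNF' m hm _ _ (-(G : ℤ))
    (neg_ne_zero.2 (by exact_mod_cast (by omega : G ≠ 0))) hwin k g d
    (fun B ζ α H => Good d B ζ (periods fun i => (α i).re) H) (fun B ζ α H _ h => h)
  refine ⟨B, C, c, hc, fun T hT => ?_⟩
  obtain ⟨⟨H₀, h1⟩, h2⟩ := h T hT
  -- real tuples and complex tuples
  have key : ∀ p : (Fin k → ℝ) → Prop,
      (({α : Fin k → ℝ | (∀ i, 1 < α i ∧ (α i : ℂ) ∈ Ints m T) ∧ p α}.ncard : ℕ) : ℝ) ≤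
      (({x : Fin k → ℂ | (∀ j, Pool.Agent.Y916.Sl.SInt m T (x j) ∧ Pool.Agent.Q246.AF.DL (x j)) ∧
        p (fun i => (x i).re)}.ncard : ℕ) : ℝ) := by
    intro p
    have hfin : {x : Fin k → ℂ | (∀ j, Pool.Agent.Y916.Sl.SInt m T (x j) ∧ Pool.Agent.Q246.AF.DL (x j)) ∧
        p (fun i => (x i).re)}.Finite := by
      have h3 : {x : Fin k → ℂ | ∀ j, x j ∈ {ξ : ℂ | Pool.Agent.Y916.Sl.SInt m T ξ}}.Finite :=
        Set.Finite.pi' fun _ => Pool.Agent.Y916.Sl.sint_fin m T
      refine h3.subset ?_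
      rintro x ⟨hx, -⟩ j
      exact (hx j).1
    exact_mod_cast Set.ncard_le_ncard_of_injOn (fun (α : Fin k → ℝ) i => ((α i : ℝ) : ℂ)) (by
      rintro α ⟨hα, hp⟩
      refine ⟨fun j => ⟨(hα j).2, ?_, ?_⟩, ?_⟩
      · exact Complex.ofReal_im _
      · show 1 < ((α j : ℝ) : ℂ).re
        rw [Complex.ofReal_re]
        exact (hα j).1
      · exact hp) (by
      intro α _ α' _ h
      funext i
      exact Complex.ofReal_injective (congrFun h i)) hfin
  refine ⟨⟨H₀, fun H₁ hH₁ ζ => ?_⟩, fun ζ => ?_⟩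
  · exact le_trans (key fun α => ¬ ∀ H : ℝ, H₁ ≤ H → H ≤ H₁ ^ Real.exp ((T : ℝ) ^ c) → Good d B ζ (periods α) H)
      (h1 H₁ hH₁ ζ)
  · exact le_trans (key fun α => ¬ ∀ N₀ : ℕ, ∃ N, N₀ ≤ N ∧
      (({j : ℕ | j < N ∧ ¬ ∀ H : ℝ, 2 ^ (2 ^ j) ≤ H → H ≤ 2 ^ (2 ^ (j + 1)) →
        Good d B ζ (periods α) H}.ncard : ℕ) : ℝ) ≤ (T : ℝ) ^ (-c) * N) (h2 ζ)

end Pool.Agent.Results.MP_caab05_ag.MeasureAllHeights
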