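import Pool.Agent.Q189.HC.Fin2

/-!
# A measure for the period conjecture: periods of almost all products of hyperelliptic curves

Let `f_1, …, f_k ∈ ℚ[x]` be monic of even degrees `n_j = 2 g_j` with distinct real roots different from `0` (the degrees
may be different, the polynomials may be equal), and let `C_j(t)` be the curve `y² = f_j(x) (x - 1/t)` of genus `g_j`, `t`
a complex number. Its period matrix `Ω_j(t)` (loops around the segments between neighbouring branch points, forms
`x^i dx / y`, `i < 2 g_j`) satisfies the Riemann-Legendre relations `Ω_j(t) Q_j(t) Ω_j(t)ᵀ = 2πi B`, and the period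
conjecture predicts that for general algebraic `t_1, …, t_k` all polynomial relations over `ℚ(t_1, …, t_k)` between the
entries of the matrices `Ω_j(t_j)` and the number `2πi`, that is between the periods of `H^1` of the product
`C_1(t_1) × … × C_k(t_k)`, are consequences of them: the smallest variety which contains the periods is the torsor of the
`(X_1, …, X_k, λ)`, `λ ≠ 0`, `X_j Q_j(t_j) X_jᵀ = λ B`, under the group of the `(g_1, …, g_k) ∈ ∏ GSp(B)` with the same
multiplier (dimension `1 + ∑ g_j (2 g_j + 1)`).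

We consider points `t = (t_1, …, t_k)` whose coordinates are algebraic integers of degree at most `m`; the number fields
`ℚ(t_1, …, t_k)` are different from point to point. Outside a set of points of density `O(T ^ (-c))` among the points with
conjugates at most `T` we prove a measure for this conjecture: for every polynomial `P(X, λ, t)` with integer coefficients,
of degree at most `d` and height at most `H`, which does not vanish on the torsor,
`|P(Ω_1(t_1), …, Ω_k(t_k), 2πi, t_1, …, t_k)| ≥ H ^ (-B)`. The exponent `B` depends on the `f_j` and on `d, m` only, in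
particular not on `T` and not on the point. The bound holds for all `H` in a long interval from `H₁` to
`H₁ ^ exp (T ^ c)`, for every sufficiently large `H₁`; and, with one exceptional set of points for all `H`, for a set of `H`
of upper density at least `1 - T ^ (-c)` on the doubly logarithmic scale, in particular for arbitrarily large `H`.

Proof. (1) `Pool.Agent.Q189.MF`: the machine of helper246 (`Pool.Agent.Q246.LN`) for connected families of G-functions,
for a different family at each point. (2) The periods near `t = ∞` are constants times G-functions (helper118,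
`Pool.Agent.Y118.HG`); the identity theorem for complex `t`, the invariance of the functional relations under the
symplectic group (helper118, `Pool.Agent.Y118.HP`), hence the connectedness of the family, are in `Pool.Agent.Q189.HC`.
The result is a transfer of near relations with arbitrary constants: `|P(Y)| ≤ (H |Y|)^B |P(Ω(t))|` for all `Y` on the
torsor, the constants being the periods of the limit motives. (3) A polynomial with integer coefficients which does not
vanish on the torsor does not vanish at some `Y` from a finite set of points with coordinates in `ℚ(√(πi), t)`, and there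
it is bounded from below by the norm over `ℚ(t)` and a transcendence measure of `π` (`Pool.Agent.TH456.TM`).
-/

set_option autoImplicit false

open Polynomial

namespace Pool.Agent.Results.MP_caab05_ag.PeriodMeasure

/-- the branch points: `z` inserted at the place `m` in the sequence of the `a i` -/
noncomputable def branch {n : ℕ} (a : Fin n → ℝ) (m : Fin (n + 1)) (z : ℂ) : Fin (n + 1) → ℂ :=
  Fin.insertNth (α := fun _ => ℂ) m z fun i => (a i : ℂ)

/-- the point `cos² θ e_l + sin² θ e_(l+1)` of the segment from `e_l` to `e_(l+1)` -/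
noncomputable def onSegment {n : ℕ} (e : Fin (n + 1) → ℂ) (l : Fin n) (θ : ℝ) : ℂ :=
  ((Real.cos θ : ℝ) : ℂ) ^ 2 * e l.castSucc + ((Real.sin θ : ℝ) : ℂ) ^ 2 * e l.succ

/-- The period `∮ x^j dx / y`, `y² = ∏ (x - e_i)`, over the loop around the segment from `e_l` to `e_(l+1)`, twice the
integral over the segment: `dx / √((x - e_l) (e_(l+1) - x)) = 2 dθ` for `x = cos² θ e_l + sin² θ e_(l+1)`, and the other
factors of `y` are the principal square roots of `x - e_i`, `i < l`, and of `e_i - x`, `i > l + 1`. -/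
noncomputable def period {n : ℕ} (e : Fin (n + 1) → ℂ) (l j : Fin n) : ℂ :=
  2 * (if Even (l : ℕ) then 1 else -Complex.I) * ∫ θ in (0 : ℝ)..(Real.pi / 2), 2 * (onSegment e l θ ^ (j : ℕ) *
    ∏ i, if i < l.castSucc then (onSegment e l θ - e i) ^ (-(1 / 2) : ℂ)
      else if l.succ < i then (e i - onSegment e l θ) ^ (-(1 / 2) : ℂ) else 1)

/-- the period matrix of the curve `y² = ∏ (x - a_i) (x - 1/t)` -/
noncomputable def Ω {n : ℕ} (a : Fin n → ℝ) (m : Fin (n + 1)) (t : ℂ) : Matrix (Fin n) (Fin n) ℂ :=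
  Matrix.of (period (branch a m (1 / t)))

/-- the polarisation in terms of the forms `x^i dx / y`, `y² = F(x) = ∑ c_s x^s`: entries `(i - j)/2 * c_(i+j+2)` -/
noncomputable def polDR (n : ℕ) (F : ℂ[X]) : Matrix (Fin n) (Fin n) ℂ :=
  Matrix.of fun i j => (((i : ℕ) : ℂ) - ((j : ℕ) : ℂ)) / 2 * F.coeff ((i : ℕ) + (j : ℕ) + 2)

/-- the polarisation in terms of the loops: `2 (-1)^r` at `(r, s)`, `|r - s| = 1` -/
def polB (n : ℕ) : Matrix (Fin n) (Fin n) ℂ :=
  Matrix.of fun r s => if (r : ℕ) = s + 1 ∨ (s : ℕ) = r + 1 then 2 * (-1) ^ (r : ℕ) else 0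

/-- The torsor of the period conjecture, for the curves `y² = f_j(x) (x - 1/t_j)`: all `(X, λ)`, `λ ≠ 0`, with
`X_j polDR X_jᵀ = λ polB` for all `j`. -/
def Torsor {k : ℕ} (n : Fin k → ℕ) (f : Fin k → ℚ[X]) (t : Fin k → ℂ) : Set ((∀ j, Matrix (Fin (n j)) (Fin (n j)) ℂ) × ℂ) :=
  {Y | Y.2 ≠ 0 ∧ ∀ j, Y.1 j * polDR (n j) ((f j).map (algebraMap ℚ ℂ) * (X - C (1 / t j))) * (Y.1 j).transpose =
    Y.2 • polB (n j)}

/-- the point with the coordinates: the entries of the matrices `X_j`, the number `lam` and the numbers `t_j` -/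
def point {k : ℕ} {n : Fin k → ℕ} (X : ∀ j, Matrix (Fin (n j)) (Fin (n j)) ℂ) (lam : ℂ) (t : Fin k → ℂ) :
    (Σ j : Fin k, Fin (n j) × Fin (n j)) ⊕ Option (Fin k) → ℂ
  | Sum.inl x => X x.1 x.2.1 x.2.2
  | Sum.inr none => lam
  | Sum.inr (some j) => t j

/-- the algebraic integers of degree at most `m` all of whose conjugates have absolute value at most `T` -/
def Ints (m T : ℕ) : Set ℂ :=
  {α | IsIntegral ℤ α ∧ (minpoly ℚ α).natDegree ≤ m ∧ ∀ z : ℂ, Polynomial.aeval z (minpoly ℚ α) = 0 → ‖z‖ ≤ T}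

/-- The measure at the height `H`: `|P(Ω(t), 2πi, t)| ≥ H ^ (-B)` for all polynomials `P` with integer coefficients of
degree at most `d` and height at most `H` which do not vanish on the torsor. -/
def Good {k : ℕ} {n : Fin k → ℕ} (a : ∀ j, Fin (n j) → ℝ) (m : ∀ j, Fin (n j + 1)) (f : Fin k → ℚ[X]) (d B : ℕ)
    (t : Fin k → ℂ) (H : ℝ) : Prop :=
  ∀ P : MvPolynomial ((Σ j : Fin k, Fin (n j) × Fin (n j)) ⊕ Option (Fin k)) ℤ, P.totalDegree ≤ d →
    (∀ e, |((P.coeff e : ℤ) : ℝ)| ≤ H) → (∃ Y ∈ Torsor n f t, MvPolynomial.aeval (point Y.1 Y.2 t) P ≠ 0) →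
    1 ≤ H ^ B * ‖MvPolynomial.aeval (point (fun j => Ω (a j) (m j) (t j)) (2 * Real.pi * Complex.I) t) P‖

open Pool.Agent.Y118.HP Pool.Agent.Y118.HG Pool.Agent.Q189.HC

lemma period_eq {n : ℕ} (a : Fin n → ℝ) (m : Fin (n + 1)) (z : ℂ) :
    Matrix.of (period (branch a m z)) = CMz a m z := by
  ext l j
  unfold CMz
  rw [Matrix.of_apply, Matrix.of_apply]
  unfold period perC dl
  congr 1
  · split_ifs with h
    · rw [pow_zero]
    · have hI : Complex.I ^ 3 = -Complex.I := by rw [pow_succ, Complex.I_sq]; ring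
      rw [hI]
  · refine intervalIntegral.integral_congr fun θ _ => ?_
    have h1 : onSegment (branch a m z) l θ = seg (ee a m z l.castSucc) (ee a m z l.succ) (Real.sin θ ^ 2) := by
      unfold onSegment seg
      have h2 : ((Real.cos θ : ℝ) : ℂ) ^ 2 = 1 - (((Real.sin θ ^ 2 : ℝ)) : ℂ) := by
        rw [← Complex.ofReal_pow, Real.cos_sq']
        push_cast
        ring
      rw [h2]
      push_cast
      rfl
    simp only [h1]
    rfl

lemma torsor_iff {k : ℕ} (n : Fin k → ℕ) (f : Fin k → ℚ[X]) (t : Fin k → ℂ) (Y : (∀ j, Matrix (Fin (n j)) (Fin (n j)) ℂ) × ℂ) :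
    Y ∈ Torsor n f t ↔ Y.2 ≠ 0 ∧ Y.1 ∈ TorC n f t Y.2 := by
  have h1 : ∀ j, polDR (n j) ((f j).map (algebraMap ℚ ℂ) * (X - C (1 / t j))) =
      (Qp (n j) (f j)).map (Polynomial.aeval (1 / t j)) := fun j => (Qp_eval (f j) (1 / t j)).symm
  have h2 : ∀ j, Y.2 • polB (n j) = (-2 * Y.2) • jm ℂ (n j) := by
    intro j
    ext r s
    rw [Matrix.smul_apply, Matrix.smul_apply, jm_apply, smul_eq_mul, smul_eq_mul]
    unfold polB
    rw [Matrix.of_apply]
    split_ifs
    · ring
    · ring
  unfold Torsor TorC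
  simp only [Set.mem_ofPred_eq, h1, h2]

lemma point_eq {k : ℕ} {n : Fin k → ℕ} (X : ∀ j, Matrix (Fin (n j)) (Fin (n j)) ℂ) (lam : ℂ) (t : Fin k → ℂ) :
    point X lam t = pnM X lam t := by
  funext v
  rcases v with v | _ | j
  · rfl
  · rfl
  · rfl

lemma good_iff {k : ℕ} {n : Fin k → ℕ} (a : ∀ j, Fin (n j) → ℝ) (m : ∀ j, Fin (n j + 1)) (f : Fin k → ℚ[X]) (d B : ℕ)
    (t : Fin k → ℂ) (H : ℝ) : Good a m f d B t H ↔ MsN n a m f d B t H := by
  unfold Good MsN
  have h1 : (fun j => Ω (a j) (m j) (t j)) = fun j => CMz (a j) (m j) (1 / t j) := by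
    funext j
    exact period_eq (a j) (m j) (1 / t j)
  simp only [point_eq, h1]
  refine forall_congr' fun P => forall_congr' fun _ => forall_congr' fun _ => ?_
  have h2 : (∃ Y ∈ Torsor n f t, MvPolynomial.aeval (pnM Y.1 Y.2 t) P ≠ 0) ↔
      ∃ (lam : ℂ) (X : ∀ j, Matrix (Fin (n j)) (Fin (n j)) ℂ), lam ≠ 0 ∧ X ∈ TorC n f t lam ∧
        MvPolynomial.aeval (pnM X lam t) P ≠ 0 := by
    constructor
    · rintro ⟨Y, hY, hne⟩
      rw [torsor_iff] at hY
      exact ⟨Y.2, Y.1, hY.1, hY.2, hne⟩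
    · rintro ⟨lam, X, h1, h2, h3⟩
      exact ⟨(X, lam), (torsor_iff n f t _).2 ⟨h1, h2⟩, h3⟩
  rw [h2]
  rfl

/-- Let `n_j` be even, `a_j` a strictly increasing sequence of `n_j` real numbers different from `0`, where `m_j` is the
number of negative ones, such that `f_j = ∏ (x - a_(j,i))` has rational coefficients.
(1) For real `z` in the same gap as `0` the periods are the usual integrals (principal branch of the square root), and they
are analytic functions of `z` outside the real line and in the strip over the gap.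
(2) For all `d` and `m ≥ 1` there is `R` such that `(Ω_1(t_1), …, Ω_k(t_k), 2πi)` is on the torsor for all `t` with
`|t_j| > R`, and there are `B`, `C` and `c > 0` such that for all `T ≥ 1`: (a) for every sufficiently large `H₁`, all but at
most `C T ^ (-c) |Ints m T| ^ k` of the tuples `t ∈ (Ints m T)^k` satisfy `|t_j| > R` and are good for all `H` with
`H₁ ≤ H ≤ H₁ ^ exp (T ^ c)`; (b) all but at most `C T ^ (-c) |Ints m T| ^ k` of the tuples have the property that there
are arbitrarily large `N` such that, for all but at most `T ^ (-c) N` of the `s < N`, `|t_j| > R` and `t` is good for all `H`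
with `2 ^ (2 ^ s) ≤ H ≤ 2 ^ (2 ^ (s + 1))`. -/
theorem result (k : ℕ) (n : Fin k → ℕ) (hn : ∀ j, Even (n j)) (a : ∀ j, Fin (n j) → ℝ) (ha : ∀ j, StrictMono (a j))
    (m : ∀ j, Fin (n j + 1)) (hm : ∀ j i, (i.castSucc < m j → a j i < 0) ∧ (m j ≤ i.castSucc → 0 < a j i))
    (f : Fin k → ℚ[X]) (hf : ∀ j, (f j).map (algebraMap ℚ ℝ) = ∏ i, (X - C (a j i))) (d D : ℕ) (hD : 1 ≤ D) :
    (∀ (j : Fin k) (z : ℝ), (∀ i, (i.castSucc < m j → a j i < z) ∧ (m j ≤ i.castSucc → z < a j i)) →
      ∀ l i : Fin (n j), period (branch (a j) (m j) z) l i =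
        2 * ∫ x in (Fin.insertNth (α := fun _ => ℝ) (m j) z (a j) l.castSucc)..(Fin.insertNth (α := fun _ => ℝ) (m j) z (a j) l.succ),
          (x : ℂ) ^ (i : ℕ) / (((∏ s, (x - Fin.insertNth (α := fun _ => ℝ) (m j) z (a j) s) : ℝ) : ℂ) ^ (1 / 2 : ℂ))) ∧
    (∀ (j : Fin k) (z : ℂ), (z.im ≠ 0 ∨ ∀ i, (i.castSucc < m j → a j i < z.re) ∧ (m j ≤ i.castSucc → z.re < a j i)) →
      ∀ l i : Fin (n j), DifferentiableAt ℂ (fun z => period (branch (a j) (m j) z) l i) z) ∧
    ∃ R : ℕ, (∀ t : Fin k → ℂ, (∀ j, (R : ℝ) < ‖t j‖) →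
      ((fun j => Ω (a j) (m j) (t j)), (2 * Real.pi * Complex.I : ℂ)) ∈ Torsor n f t) ∧
    ∃ (B : ℕ) (C c : ℝ), 0 < c ∧ ∀ T : ℕ, 1 ≤ T →
    (∃ H₀ : ℝ, ∀ H₁ : ℝ, H₀ ≤ H₁ →
      (({t : Fin k → ℂ | (∀ j, t j ∈ Ints D T) ∧ ¬ ∀ H : ℝ, H₁ ≤ H → H ≤ H₁ ^ Real.exp ((T : ℝ) ^ c) →
        (∀ j, (R : ℝ) < ‖t j‖) ∧ Good a m f d B t H}.ncard : ℕ) : ℝ) ≤ C * (T : ℝ) ^ (-c) * (((Ints D T).ncard : ℕ) : ℝ) ^ k) ∧
    (({t : Fin k → ℂ | (∀ j, t j ∈ Ints D T) ∧ ¬ ∀ N₀ : ℕ, ∃ N, N₀ ≤ N ∧
      (({s : ℕ | s < N ∧ ¬ ∀ H : ℝ, 2 ^ (2 ^ s) ≤ H → H ≤ 2 ^ (2 ^ (s + 1)) →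
        (∀ j, (R : ℝ) < ‖t j‖) ∧ Good a m f d B t H}.ncard : ℕ) : ℝ) ≤
        (T : ℝ) ^ (-c) * N}.ncard : ℕ) : ℝ) ≤ C * (T : ℝ) ^ (-c) * (((Ints D T).ncard : ℕ) : ℝ) ^ k := by
  have h0 : ∀ j, InGap (a j) (m j) 0 := fun j i => hm j i
  have hf0 : ∀ j, (f j).coeff 0 ≠ 0 := by
    intro j h
    have h1 := congrArg (fun p : ℝ[X] => p.coeff 0) (hf j)
    simp only [coeff_map] at h1
    rw [h, map_zero, coeff_zero_eq_eval_zero, eval_prod] at h1
    refine (Finset.prod_ne_zero_iff.2 fun i _ => ?_) h1.symm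
    rw [eval_sub, eval_X, eval_C, zero_sub, neg_ne_zero]
    rcases lt_or_ge i.castSucc (m j) with h2 | h2
    · exact ((hm j i).1 h2).ne
    · exact ((hm j i).2 h2).ne'
  refine ⟨fun j z hz l i => ?_, fun j z hz l i => ?_, ?_⟩
  · have h1 := congrFun (congrFun (CMz_real (hn j) (ha j) (t := z) hz) l) i
    rw [← period_eq] at h1
    exact h1
  · have hzD : z ∈ Dm (a j) (m j) := by
      rcases hz with hz | hz
      · exact mem_Dm_of_im _ _ hz
      · intro i
        refine ⟨fun h => ?_, fun h => ?_⟩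
        · rw [Complex.mem_slitPlane_iff]
          left
          have := (hz i).1 h
          simpa using this
        · rw [Complex.mem_slitPlane_iff]
          left
          have := (hz i).2 h
          simpa using this
    have h1 : (fun z => period (branch (a j) (m j) z) l i) = fun z => dl l * perC (ee (a j) (m j) z) l (i : ℕ) := by
      funext z
      exact congrFun (congrFun (period_eq (a j) (m j) z) l) i
    rw [h1]
    exact (((differentiableOn_perC (ha j) (m j) l (i : ℕ)).differentiableAt ((isOpen_Dm (a j) (m j)).mem_nhds hzD)).const_mul _)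
  obtain ⟨R, hR1, hR, B, C, c, hc, hmain⟩ := mainN hn h0 ha hf hf0 D d hD
  refine ⟨R, fun t ht => ?_, B, C, c, hc, fun T hT => ?_⟩
  · rw [torsor_iff]
    refine ⟨tpi_ne, ?_⟩
    have h1 := hR t ht
    have h2 : (fun j => Ω (a j) (m j) (t j)) = fun j => CMz (a j) (m j) (1 / t j) := by
      funext j
      exact period_eq (a j) (m j) (1 / t j)
    simp only [h2]
    exact h1
  · simp only [good_iff]
    exact hmain T hT

end Pool.Agent.Results.MP_caab05_ag.PeriodMeasure
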