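import Pool.Agent.Q207.HN.Tc

/-!
# The period torsor of the sum of any motive and of almost all members over number fields of hypergeometric families

Let `V` be a motive over a number field `K ⊂ ℂ`, with period matrix `Z` (rows: Betti, columns: de Rham). A `K`-subtorsor is a set
of invertible matrices which is defined by polynomials over `K`, of any degree, and closed under `x y⁻¹ z`. Let `PT_K(Z)` be the
smallest `K`-subtorsor which contains `Z`, the intersection of all of them. The torsor of motivic isomorphisms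
`H_dR(V) → H_B(V)` is a `K`-subtorsor under the motivic Galois group which contains `Z`, and Grothendieck's period conjecture (the
transcendence degree of the periods is the dimension of the motivic Galois group) implies that `PT_K(Z)` is equal to it, up to
connected components. This is the torsor form of the conjecture over `K`: the motivic relations are all relations
between the periods which define torsors.

Let `M_i`, `1 ≤ i ≤ k`, be members of families whose periods are the solutions of the hypergeometric equations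
`θ^n f = z ∏_l (θ + β_{i l}) f`, of even order `n = n_i`, with rational `β_{i l}` between `0` and `1` which are
symmetric under `b ↦ 1 - b`; for example `M_i = H^3` of the mirror quintics (`n = 4`, `β = (1/5, 2/5, 3/5, 4/5)`). The families may
coincide. Let `P_i` be their period matrices, `Q_i` the intersection form on the Betti side, `S_i` the form on the de Rham side,
`P_i S_i P_i^t = γ_i Q_i⁻¹`, where `γ_i` is a rational multiple of `(2πi)^d` if `M_i ⊂ H^d`. Let `W` be an arbitrary motive, with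
period matrix `C_0`, and let `L_i` be the lines with the periods `γ_i` (the Tate motives `ℚ(-d)`).

**Theorem.** For almost all `k`-tuples of algebraic integers `α_i` of degree at most `m`, each in its own number field (all but
`C T^(-c) |I|^k` of the tuples in `I^k` without coordinates in a finite set, where `I` is the set of the algebraic integers of
degree `≤ m` with conjugates at most `T`), for the members `M_i` at `z = 1 / α_i` and for all number fields `K` of degree at most
`D` which contain the `α_i`, the forms `S_i` are defined over `K`, and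

`PT_K(C_0 ⊕ P_1 ⊕ ⋯ ⊕ P_k) = {x_0 ⊕ X_1 ⊕ ⋯ ⊕ X_k : X_i S_i X_i^t = μ_i Q_i⁻¹, x_0 ⊕ μ_1 ⊕ ⋯ ⊕ μ_k ∈ PT_K(C_0 ⊕ γ_1 ⊕ ⋯ ⊕ γ_k)}`.

There are functions `D(T) → ∞` and `ε(T) → 0` such that for all but `ε(T) |I|^k` tuples this is true for all number fields of
degree at most `D(T)`.

So the period torsor of `W ⊕ M_1 ⊕ ⋯ ⊕ M_k` is the fibre product of the period torsor of `W ⊕ L_1 ⊕ ⋯ ⊕ L_k` and of the torsors of
all similitudes of the intersection forms. If `W` contains the Tate motive, then the period torsor of `W ⊕ L_1 ⊕ ⋯ ⊕ L_k` is that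
of `W`, and the theorem says that the torsor form of the period conjecture over `K` for `W` implies it for
`W ⊕ M_1 ⊕ ⋯ ⊕ M_k`: the motivic Galois group of the latter is contained in the fibre product over `G_m` of that of `W` and of the
groups of symplectic similitudes. In particular (`W = ℚ(-1)`) the torsor form holds for almost all sums of mirror quintics over
number fields, where the torsor has the dimension `1 + ∑ n_i (n_i + 1) / 2`; and all products of mirror quintics with elliptic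
curves with complex multiplication, for which the conjecture is known (Chudnovsky), satisfy it. It is part of the theorem that
the `M_i` are independent of each other and of `W`.

The group and torsor parts are as follows. All subtorsors with the period matrix are stable under the symplectic groups
(`Q207.AF.tors_alg`, the theorem for connected families of G-functions, which was in `TorsorsOverNumberFields`, here applied
to the families of `Q207.HN.inst`, whose connectedness and symmetries are theorems). The de Rham forms have entries in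
`ℚ(α_i)`, by the explicit form of the concomitant of the hypergeometric equation. Two alternating forms over `K` are equivalent over
`K`, so the multiplier has a section over `K`, and the image of a stable subtorsor in the torsor of the `x_0 ⊕ μ` is again
a `K`-subtorsor (`Q207.HN.le_pto`).
-/

set_option autoImplicit false

open PowerSeries Filter

namespace Pool.Agent.Results.MP_caab05_ag.PeriodTorsorFormula

/-! ### Hypergeometric periods -/

/-- the power series `j + ε` in the variable `ε` -/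
noncomputable def shift (j : ℕ) : PowerSeries ℚ := PowerSeries.C (j : ℚ) + PowerSeries.X

/-- `a_j(ε) = ∏_{l < j} ∏_i (l + ε + β_i) / (l + 1 + ε)^n`. The series `∑_j a_j(ε) z^(j + ε)` solves the equation
`(θ^n - z ∏_i (θ + β_i)) f = ε^n z^ε`, `θ = z d/dz`, hence its coefficients `f_a` at `ε^a` with `a < n` are solutions of the
homogeneous equation. -/
noncomputable def frob {m : ℕ} (β : Fin m → ℚ) (j : ℕ) : PowerSeries ℚ :=
  ∏ l ∈ Finset.range j, ((∏ i, (shift l + PowerSeries.C (β i))) * ((shift (l + 1))⁻¹) ^ m)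

/-- The matrix with the entries `(θ^b f_a)(z)`, where `f_a(z)` is the coefficient of `ε^a` in the series
`∑_j a_j(ε) z^(j + ε)`, `z^ε = ∑_l L^l ε^l / l!`, and `L` is a logarithm of `z`. -/
noncomputable def solutions {m : ℕ} (β : Fin m → ℚ) (z L : ℂ) : Matrix (Fin m) (Fin m) ℂ :=
  Matrix.of fun b a => ∑ l ∈ Finset.range ((a : ℕ) + 1), L ^ l / (l.factorial : ℂ) *
    ∑' j : ℕ, ((coeff ((a : ℕ) - l) (shift j ^ (b : ℕ) * frob β j) : ℚ) : ℂ) * z ^ j

/-- the flat pairing of the solutions in the Frobenius basis -/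
noncomputable def pairing (m : ℕ) : Matrix (Fin m) (Fin m) ℂ :=
  Matrix.of fun a b => if (a : ℕ) + b + 1 = m then (-1) ^ (b : ℕ) else 0

/-- The equation `θ^m f = z ∏_i (θ + β_i) f` has even order, rational exponents `β_i` between `0` and `1`, and is self-dual:
the exponents are symmetric under `a ↦ 1 - a`. For example `β = (1/5, 2/5, 3/5, 4/5)` for mirror quintics. -/
structure Symplectic {m : ℕ} (β : Fin m → ℚ) : Prop where
  two : 2 ≤ m
  even : Even m
  pos : ∀ l, 0 < β l ∧ β l < 1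
  dual : ∃ σ : Equiv.Perm (Fin m), ∀ l, β (σ l) + β l = 1

/-- an integral matrix as a complex matrix -/
def toC {m : ℕ} (Q : Matrix (Fin m) (Fin m) ℤ) : Matrix (Fin m) (Fin m) ℂ := Q.map fun x : ℤ => (x : ℂ)

/-- `Ω` is the base change from the Frobenius basis to a basis of the rational local system in which the integral matrix `Q`
is, up to the factor `γ`, the flat pairing (`γ` is a rational multiple of `(2πi)^d` for the intersection form on `H^d`). -/
def IsBaseChange {m : ℕ} (Ω : Matrix (Fin m) (Fin m) ℂ) (Q : Matrix (Fin m) (Fin m) ℤ) (γ : ℂ) : Prop :=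
  IsUnit Ω.det ∧ γ ≠ 0 ∧ Ω.transpose * toC Q * Ω = γ • pairing m

/-- the algebraic integers of degree at most `m` all of whose conjugates have absolute value at most `T` -/
def integers (m T : ℕ) : Set ℂ :=
  {α | IsIntegral ℤ α ∧ (minpoly ℚ α).natDegree ≤ m ∧ ∀ z : ℂ, Polynomial.aeval z (minpoly ℚ α) = 0 → ‖z‖ ≤ T}

/-! ### Subtorsors -/

/-- `T` is (the set of complex points of) a `K`-subtorsor of `GL_B`: it is closed under `x y⁻¹ z`, and
it is defined in `GL_B` by polynomials with coefficients in `K`. -/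
def IsSubtorsor (K : Subfield ℂ) {B : Type} [Fintype B] [DecidableEq B] (T : Set (Matrix B B ℂ)) : Prop :=
  (∀ x ∈ T, ∀ y ∈ T, ∀ z ∈ T, x * y⁻¹ * z ∈ T) ∧ ∃ I : Set (MvPolynomial (B × B) K), ∀ x : Matrix B B ℂ, x ∈ T ↔
    IsUnit x ∧ ∀ p ∈ I, MvPolynomial.eval (fun b => x b.1 b.2) (MvPolynomial.map (algebraMap K ℂ) p) = 0

/-- the smallest `K`-subtorsor which contains `Z` (`periodTorsor_isSubtorsor`) -/
def periodTorsor (K : Subfield ℂ) {B : Type} [Fintype B] [DecidableEq B] (Z : Matrix B B ℂ) : Set (Matrix B B ℂ) :=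
  {x | ∀ T, IsSubtorsor K T → Z ∈ T → x ∈ T}

theorem periodTorsor_isSubtorsor (K : Subfield ℂ) {B : Type} [Fintype B] [DecidableEq B] {Z : Matrix B B ℂ} (hZ : IsUnit Z) :
    IsSubtorsor K (periodTorsor K Z) ∧ Z ∈ periodTorsor K Z :=
  ⟨Q207.HN.pto_sub hZ, fun _ _ h => h⟩

section
variable {k w : ℕ} {n : Fin k → ℕ}

/-- the index set of the block matrices -/
abbrev Index (w : ℕ) {k : ℕ} (n : Fin k → ℕ) : Type := Fin w ⊕ Σ i, Fin (n i)

/-- the block matrix `x ⊕ X_1 ⊕ … ⊕ X_k` -/
noncomputable def total (x : Matrix (Fin w) (Fin w) ℂ) (X : ∀ i, Matrix (Fin (n i)) (Fin (n i)) ℂ) :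
    Matrix (Index w n) (Index w n) ℂ :=
  Matrix.fromBlocks x 0 0 (Matrix.blockDiagonal' X)

/-- the `1 × 1` matrices with the entries `μ_i` -/
def lines (μ : Fin k → ℂ) (i : Fin k) : Matrix (Fin 1) (Fin 1) ℂ := Matrix.of fun _ _ => μ i

/-- the period matrices of the members at `z_i = 1 / α_i`, where `ℓ_i` is a logarithm of `α_i` -/
noncomputable def periods (β : ∀ i, Fin (n i) → ℚ) (Ω : ∀ i, Matrix (Fin (n i)) (Fin (n i)) ℂ) (α ℓ : Fin k → ℂ) (i : Fin k) :
    Matrix (Fin (n i)) (Fin (n i)) ℂ :=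
  Ω i * (solutions (β i) (1 / α i) (-ℓ i)).transpose

/-- the forms on the de Rham side: `S_i` with `P_i S_i P_i^t = γ_i Q_i⁻¹` -/
noncomputable def deRhamForm (β : ∀ i, Fin (n i) → ℚ) (Ω : ∀ i, Matrix (Fin (n i)) (Fin (n i)) ℂ)
    (Q : ∀ i, Matrix (Fin (n i)) (Fin (n i)) ℤ) (γ α ℓ : Fin k → ℂ) (i : Fin k) : Matrix (Fin (n i)) (Fin (n i)) ℂ :=
  γ i • ((periods β Ω α ℓ i)⁻¹ * (toC (Q i))⁻¹ * ((periods β Ω α ℓ i)⁻¹).transpose)

/-- The conclusion for one tuple `α`: all `|α_i| > 1` (where the series converge), and for all logarithms `ℓ_i` of the `α_i`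
and all number fields `K` of degree at most `D` which contain the `α_i` the forms `S_i` are defined over `K`, and the smallest
`K`-subtorsor which contains the period matrix of `W ⊕ M_1 ⊕ ⋯ ⊕ M_k` is given by the formula of the introduction. -/
def Good (D : ℕ) (β : ∀ i, Fin (n i) → ℚ) (Ω : ∀ i, Matrix (Fin (n i)) (Fin (n i)) ℂ)
    (Q : ∀ i, Matrix (Fin (n i)) (Fin (n i)) ℤ) (γ : Fin k → ℂ) (C₀ : Matrix (Fin w) (Fin w) ℂ) (α : Fin k → ℂ) : Prop :=
  (∀ i, 1 < ‖α i‖) ∧ ∀ ℓ : Fin k → ℂ, (∀ i, Complex.exp (ℓ i) = α i) →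
  ∀ K : Subfield ℂ, FiniteDimensional ℚ K → Module.finrank ℚ K ≤ D → (∀ i, α i ∈ K) →
    (∀ i a b, deRhamForm β Ω Q γ α ℓ i a b ∈ K) ∧
    periodTorsor K (total C₀ (periods β Ω α ℓ)) =
      {y | ∃ (x₀ : Matrix (Fin w) (Fin w) ℂ) (X : ∀ i, Matrix (Fin (n i)) (Fin (n i)) ℂ) (μ : Fin k → ℂ), y = total x₀ X ∧
        total x₀ (lines μ) ∈ periodTorsor K (total C₀ (lines γ)) ∧
        ∀ i, X i * deRhamForm β Ω Q γ α ℓ i * (X i).transpose = μ i • (toC (Q i))⁻¹}

end

theorem frob_eq {m : ℕ} (β : Fin m → ℚ) (j : ℕ) : frob β j = Pool.Agent.Y119.HY.aq m (Q207.HM.QA β) j := by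
  unfold frob Pool.Agent.Y119.HY.aq
  refine Finset.prod_congr rfl fun l _ => ?_
  have h1 : (∏ i, (shift l + PowerSeries.C (β i))) = Polynomial.aeval (Pool.Agent.Y119.HY.kx l) (Q207.HM.QA β) := by
    unfold Q207.HM.QA
    rw [map_prod]
    refine Finset.prod_congr rfl fun j _ => ?_
    rw [map_add, Polynomial.aeval_X, Polynomial.aeval_C]
    rfl
  rw [h1]
  rfl

theorem solutions_eq {m : ℕ} (β : Fin m → ℚ) (z L : ℂ) : solutions β z L = Q207.HN.YL β z L := by
  ext b a
  rw [Q207.HN.YL_apply]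
  unfold solutions
  rw [Matrix.of_apply]
  refine Finset.sum_congr rfl fun l _ => ?_
  congr 1
  refine tsum_congr fun j => ?_
  rw [frob_eq]
  rfl

theorem periods_eq {k : ℕ} {n : Fin k → ℕ} (β : ∀ i, Fin (n i) → ℚ) (Ω : ∀ i, Matrix (Fin (n i)) (Fin (n i)) ℂ) (α ℓ : Fin k → ℂ) :
    periods β Ω α ℓ = Q207.HN.Pm β Ω α ℓ := by
  funext i
  unfold periods Q207.HN.Pm
  rw [solutions_eq]

theorem good_of {k w D : ℕ} {n : Fin k → ℕ} {β : ∀ i, Fin (n i) → ℚ} {Ω : ∀ i, Matrix (Fin (n i)) (Fin (n i)) ℂ}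
    {Q : ∀ i, Matrix (Fin (n i)) (Fin (n i)) ℤ} {γ : Fin k → ℂ} {C₀ : Matrix (Fin w) (Fin w) ℂ} {α : Fin k → ℂ}
    (h : Q207.HN.GdP D β Ω Q γ C₀ α) : Good D β Ω Q γ C₀ α := by
  refine ⟨h.1, fun ℓ hℓ K hKf hKD hαK => ?_⟩
  obtain ⟨h1, h2⟩ := h.2 ℓ hℓ K hKf hKD hαK
  have h3 : deRhamForm β Ω Q γ α ℓ = Q207.HN.sf β Ω Q γ α ℓ := by
    funext i
    unfold deRhamForm Q207.HN.sf
    rw [periods_eq]
    rfl
  rw [h3, periods_eq]
  exact ⟨h1, h2⟩

/-- **The theorem** of the introduction: the formula for all number fields of degree at most `D`, with a power saving, and for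
all number fields of degree at most `D(T) → ∞`. -/
theorem result (k m w : ℕ) (hm : 1 ≤ m) (n : Fin k → ℕ) (β : ∀ i, Fin (n i) → ℚ) (hβ : ∀ i, Symplectic (β i)) :
    (∀ D : ℕ, ∃ c C : ℝ, 0 < c ∧ ∀ (Ω : ∀ i, Matrix (Fin (n i)) (Fin (n i)) ℂ) (Q : ∀ i, Matrix (Fin (n i)) (Fin (n i)) ℤ)
      (γ : Fin k → ℂ), (∀ i, IsBaseChange (Ω i) (Q i) (γ i)) → ∃ B : Set ℂ, B.Finite ∧
      ∀ C₀ : Matrix (Fin w) (Fin w) ℂ, IsUnit C₀.det → ∀ T : ℕ, 1 ≤ T →
      ({α : Fin k → ℂ | (∀ i, α i ∈ integers m T ∧ α i ∉ B) ∧ ¬ Good D β Ω Q γ C₀ α}.ncard : ℝ) ≤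
        C * (T : ℝ) ^ (-c) * ((integers m T).ncard : ℝ) ^ k) ∧
    ∀ (Ω : ∀ i, Matrix (Fin (n i)) (Fin (n i)) ℂ) (Q : ∀ i, Matrix (Fin (n i)) (Fin (n i)) ℤ)
      (γ : Fin k → ℂ), (∀ i, IsBaseChange (Ω i) (Q i) (γ i)) →
      ∃ (D : ℕ → ℕ) (ε : ℕ → ℝ), Tendsto D atTop atTop ∧ Tendsto ε atTop (nhds 0) ∧
      ∀ C₀ : Matrix (Fin w) (Fin w) ℂ, IsUnit C₀.det → ∀ T : ℕ, 1 ≤ T →
      ({α : Fin k → ℂ | (∀ i, α i ∈ integers m T) ∧ ¬ Good (D T) β Ω Q γ C₀ α}.ncard : ℝ) ≤
        ε T * ((integers m T).ncard : ℝ) ^ k := by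
  classical
  have hfin : ∀ T : ℕ, {α : Fin k → ℂ | ∀ i, α i ∈ integers m T}.Finite := by
    intro T
    refine (Set.Finite.pi (fun _ : Fin k => Pool.Agent.Y916.Sl.sint_fin m T)).subset ?_
    intro α hα i _
    exact hα i
  have hβ' : ∀ i, Q207.HN.Sp1 (β i) := fun i => ⟨(hβ i).two, (hβ i).even, (hβ i).pos, (hβ i).dual⟩
  refine ⟨fun D => ?_, fun Ω Q γ hQ => ?_⟩
  · obtain ⟨c, C, hc0, hmain⟩ := Q207.HN.pto_alg k m w D hm n hβ'
    refine ⟨c, C, hc0, fun Ω Q γ hQ => ?_⟩
    obtain ⟨B, hBf, hB⟩ := hmain Ω Q γ (fun i => (hQ i).1) (fun i => (hQ i).2.1) fun i => (hQ i).2.2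
    refine ⟨B, hBf, fun C₀ hC₀ T hT => le_trans ?_ (hB C₀ hC₀ T hT)⟩
    refine Nat.cast_le.2 (Set.ncard_le_ncard (fun α hα => ⟨hα.1, fun h3 => hα.2 (good_of h3)⟩) ?_)
    exact (hfin T).subset fun α hα i => (hα.1 i).1
  · obtain ⟨D, ε, hD, hε, hmain⟩ := Q207.HN.pto_grow k m w hm n hβ' (Ω := Ω) (Q := Q) (γ := γ) (fun i => (hQ i).1)
      (fun i => (hQ i).2.1) fun i => (hQ i).2.2
    refine ⟨D, ε, hD, hε, fun C₀ hC₀ T hT => le_trans ?_ (hmain C₀ hC₀ T hT)⟩
    refine Nat.cast_le.2 (Set.ncard_le_ncard (fun α hα => ⟨hα.1, fun h3 => hα.2 (good_of h3)⟩) ?_)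
    exact (hfin T).subset fun α hα i => hα.1 i

end Pool.Agent.Results.MP_caab05_ag.PeriodTorsorFormula
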